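import Pool.Agent.Helper95.MEI.C8
import Pool.Agent.Helper82.CW.Num

/-!
# Sharp decimal bounds for the volume of the Meissner bodies
-/

namespace Helper73.FARP

open Set Real Pool.Agent.Helper95.MEI

theorem vm_lt : Helper82.CW.VM < 0.419863 := by
  show Cst.VM < 0.419863
  have hp : Cst.VM = 2 / 3 * π - √3 * π / 2 * Cst.phm := by
    unfold Cst.VM
    rw [Cst.arccos_third]
    ring
  have h1 := Cst.phm_lo
  have h3 := Cst.s3pi
  have b : π < 3.14159266 := by
    have := Real.pi_lt_d20
    linarith
  rw [hp]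
  have : 5.441397 / 2 * 0.6154794 ≤ √3 * π / 2 * Cst.phm := by
    apply mul_le_mul (by linarith [h3.1]) (by linarith) (by norm_num) (by positivity)
  norm_num at *
  linarith

theorem vm_gt : 0.419857 < Helper82.CW.VM := by
  show 0.419857 < Cst.VM
  have hp : Cst.VM = 2 / 3 * π - √3 * π / 2 * Cst.phm := by
    unfold Cst.VM
    rw [Cst.arccos_third]
    ring
  have h2 := Cst.phm_hi
  have h3 := Cst.s3pi
  have a : 3.14159265 < π := by
    have := Real.pi_gt_d20
    linarith
  rw [hp]
  have : √3 * π / 2 * Cst.phm ≤ 5.441399 / 2 * 0.6154799 := by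
    apply mul_le_mul (by linarith [h3.2]) (by linarith) Cst.phm_pos.le (by norm_num)
  norm_num at *
  linarith

end Helper73.FARP
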