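import Pool.Agent.Helper82.M2.NearR
import Pool.Agent.Helper80.CW.Far604
import Pool.Agent.Helper73.FARP.VM

/-!
# The theorem from the core statement with the defect bound given by a larger far radius
-/

set_option autoImplicit false

namespace Helper73.FARP

open Set Metric Finset MeasureTheory Helper80.CW Helper82.CW Helper14.CW Helper93.MEI Helper82.M2
open Pool.Agent.Helper73.MEI Helper13.PLM
open scoped RealInnerProductSpace

/-- a body of constant width `1` in a ball of radius `R` has volume at least `v` -/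
def Far (R v : ℝ) : Prop := ∀ K : Set E3, IsCompact K → Convex ℝ K → Width1 K →
  (∃ x0, K ⊆ Metric.closedBall x0 R) → ENNReal.ofReal v ≤ volume K

theorem far604 : Far 0.6040 0.41996 := by
  rintro K hK hc hw ⟨x0, hx0⟩
  exact Helper80.Far604.volume_far hK hc hw le_rfl hx0

theorem coreX_mono {X κ κ' : ℝ} (h : κ' ≤ κ) (hc : CoreX X κ) : CoreX X κ' := by
  intro K σ hσ a c hN hX S hS i
  have h1 := hc K σ hσ a c hN hX S hS i
  have h2 := mul_le_mul_of_nonneg_right h (hS.nn i)
  linarith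

/-- the core statement for smaller defect bounds -/
theorem coreX_anti {X X' κ : ℝ} (h : X' ≤ X) (hc : CoreX X κ) : CoreX X' κ := by
  intro K σ hσ a c hN hX S hS i
  exact hc K σ hσ a c hN (hX.trans (by linarith)) S hS i

/-- **the theorem for all bodies from the core statement with defect bound `X`**, any far radius -/
theorem concl_of_coreR {R X κ v : ℝ} (h60 : 0.6026 ≤ R) (hX : 0 ≤ X) (hX1 : X ≤ 0.21)
    (hRX : 1 / 4 + 1 / (4 * (2 + X)) ≤ R ^ 2) (hv : 0.41987 ≤ v) (hfar : Far R v) (hκ : 0 < κ)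
    (hcore : CoreX X κ) : Helper96.MEI.Concl := by
  obtain ⟨κ', hk0, hk1, hk2⟩ : ∃ κ' : ℝ, 0 < κ' ∧ κ' ≤ κ ∧ κ' ≤ 3e-6 :=
    ⟨min κ 3e-6, lt_min hκ (by norm_num), min_le_left _ _, min_le_right _ _⟩
  have hcore' := coreX_mono hk1 hcore
  refine Helper96.MEI.concl_of_core' (κ := κ') hk0 ?_
  intro f hf hp
  have hKc : IsCompact (Helper37.FX.Bd f) := Helper37.FX.Bd_compact hf
  have hcv : Convex ℝ (Helper37.FX.Bd f) := Helper37.FX.Bd_convex f
  have hw : Width1 (Helper37.FX.Bd f) := width_Bd hf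
  have hfin : volume (Helper37.FX.Bd f) ≠ ⊤ := hKc.measure_lt_top.ne
  have hVe : Helper96.MEI.VMe = VM := rfl
  by_cases hball : ∃ x0, Helper37.FX.Bd f ⊆ Metric.closedBall x0 R
  · refine Helper96.MEI.core_of_surplus (δ := 6e-6) (by linarith) hKc hw ?_
    refine le_trans (ENNReal.ofReal_le_ofReal ?_) (hfar _ hKc hcv hw hball)
    rw [hVe]
    have h1 := vm_lt
    linarith
  · have hno1 : ¬ ∃ x0, Helper37.FX.Bd f ⊆ closedBall x0 0.6026 := by
      rintro ⟨x0, hx0⟩
      exact hball ⟨x0, hx0.trans (closedBall_subset_closedBall h60)⟩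
    obtain ⟨b, c, hN, heX⟩ := exists_nearR hKc hw h60 hX hX1 hRX hball
    obtain ⟨σ, hσ, hpm⟩ := pm_exists hf hp
    obtain ⟨S, hS⟩ := viol_exists hKc hw.nonempty b
    have hcr := hcore' _ σ hσ b c ⟨hpm, hcv, hw, hno1, hN⟩ heX S hS
    obtain ⟨i0, -, hi0⟩ := Finset.exists_max_image Finset.univ S ⟨0, Finset.mem_univ _⟩
    refine ⟨b, hN.reg, S i0, hS.nn i0, ?_, ?_⟩
    · intro i q hq
      have h7 := hS.le i q hq
      have h8 := hi0 i (Finset.mem_univ _)
      have h9 : dist q (b i) ^ 2 - 1 = Qv b i q := by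
        rw [dist_eq_norm]; rfl
      rw [h9]
      linarith
    · show ENNReal.ofReal (Helper96.MEI.VMe + κ' * S i0) ≤ volume (Helper37.FX.Bd f)
      rw [← ENNReal.ofReal_toReal hfin]
      apply ENNReal.ofReal_le_ofReal
      rw [hVe]
      exact hcr i0

/-- **the theorem from the core statement with `X = 0.1774`** (far radius `0.6040`) -/
theorem concl_of_core604 {κ : ℝ} (hκ : 0 < κ) (hcore : CoreX 0.1774 κ) : Helper96.MEI.Concl :=
  concl_of_coreR (R := 0.6040) (by norm_num) (by norm_num) (by norm_num) (by norm_num)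
    (v := 0.41996) (by norm_num) far604 hκ hcore

/-- **far or near**: `VM < volume K`, or four near points with defect sum at most `X` -/
theorem far_or_near {R X v : ℝ} (h60 : 0.6026 ≤ R) (hX : 0 ≤ X) (hX1 : X ≤ 0.21)
    (hRX : 1 / 4 + 1 / (4 * (2 + X)) ≤ R ^ 2) (hv : 0.41987 ≤ v) (hfar : Far R v) {K : Set E3}
    (hK : IsCompact K) (hc : Convex ℝ K) (hw : Width1 K) :
    ENNReal.ofReal (VM + 7e-6) ≤ volume K ∨ ∃ a c : Fin 4 → E3, Near K a c ∧
      ∑ i, ∑ j, (if i = j then 0 else 1 - ‖c i - c j‖ ^ 2) ≤ 2 * X := by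
  by_cases hball : ∃ x0, K ⊆ Metric.closedBall x0 R
  · left
    refine le_trans (ENNReal.ofReal_le_ofReal ?_) (hfar K hK hc hw hball)
    have h1 := vm_lt
    linarith
  · right
    exact exists_nearR hK hw h60 hX hX1 hRX hball

end Helper73.FARP
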