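import Pool.Agent.Helper80.CW.JMN
import Pool.Agent.Helper82.CW.Fin

/-!
# Volume of a body of constant width in a ball, from the full family of identities

If a combination `Σ co(m,n) J_{m,n}` of the divergence identities satisfies a pointwise
inequality with constant `B`, then every body of constant width `1` in a ball of radius `R`
with `R² - 1/4 < r` has volume at least `π/6 - 2πB`.
-/

namespace Helper73.FARP

open Set Metric MeasureTheory Helper80.CW Helper82.CW
open scoped ContDiff Topology RealInnerProductSpace Real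

/-- the pointwise integrand of the identity `J_{m,n}`; `s` stands for `lap² - hs2` -/
noncomputable def JV (m n : ℕ) (g q t s : ℝ) : ℝ :=
  (m : ℝ) * (m - 1) * g ^ (m - 2) * q ^ (n + 1) - m * (m + 1) * g ^ m * q ^ n +
    t * (m * (2 * n + 1) * g ^ (m - 1) * q ^ n - 2 * n * (m + 1) * g ^ (m + 1) * q ^ (n - 1)) +
    2 * n * s * g ^ m * (n * q ^ (n - 1) - (n - 1) * g ^ 2 * q ^ (n - 2))

theorem JI_eq (m n : ℕ) (f : E3 → ℝ) :
    JI m n f = fun x => JV m n (f x) (gr2 f x) (lap f x) (lap f x ^ 2 - hs2 f x) := rfl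

/-- the pointwise hypothesis -/
def PW (S : Finset (ℕ × ℕ)) (co : ℕ × ℕ → ℝ) (r B : ℝ) : Prop :=
  ∀ g q t s : ℝ, g ^ 2 ≤ q → |g| + q ≤ r → |t| ≤ 1 → |t| - 1 / 2 ≤ s →
    -(s / 2) + ∑ k ∈ S, co k * JV k.1 k.2 g q t s ≤ B

theorem sm_JV {f : E3 → ℝ} (hs : Sm f) (m n : ℕ) :
    Sm (fun x => JV m n (f x) (gr2 f x) (lap f x) (lap f x ^ 2 - hs2 f x)) := by
  unfold JV
  exact (((((Sm.const _).mul (hs.pow _)).mul (hs.gr2.pow _)).sub
      (((Sm.const _).mul (hs.pow _)).mul (hs.gr2.pow _))).add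
      (hs.lap.mul ((((Sm.const _).mul (hs.pow _)).mul (hs.gr2.pow _)).sub
        (((Sm.const _).mul (hs.pow _)).mul (hs.gr2.pow _))))).add
      ((((Sm.const _).mul ((hs.lap.pow 2).sub hs.hs2)).mul (hs.pow _)).mul
        (((Sm.const _).mul (hs.gr2.pow _)).sub
          (((Sm.const _).mul (hs.pow 2)).mul (hs.gr2.pow _))))

theorem SI_sum {S : Finset (ℕ × ℕ)} {F : ℕ × ℕ → E3 → ℝ} (hF : ∀ k ∈ S, Sm (F k)) :
    SI (fun x => ∑ k ∈ S, F k x) = ∑ k ∈ S, SI (F k) := by
  classical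
  induction S using Finset.induction_on with
  | empty =>
    simp only [Finset.sum_empty]
    have := SI_const 0
    rw [this]
    ring
  | insert a T ha ih =>
    have h1 : Sm (F a) := hF a (Finset.mem_insert_self a T)
    have h2 : ∀ k ∈ T, Sm (F k) := fun k hk => hF k (Finset.mem_insert_of_mem hk)
    rw [Finset.sum_insert ha, ← ih h2, ← SI_add h1 (Sm.sum h2)]
    congr 1
    funext x
    rw [Finset.sum_insert ha]

/-! ### scaling -/

theorem gr2_const_mul (a : ℝ) {f : E3 → ℝ} (hs : Sm f) {x : E3} (hx : x ≠ 0) :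
    gr2 (fun x => a * f x) x = a ^ 2 * gr2 f x := by
  unfold gr2
  rw [Finset.mul_sum]
  apply Finset.sum_congr rfl
  intro i _
  rw [pd_const_mul a hs i hx]
  ring

theorem pd2_const_mul (a : ℝ) {f : E3 → ℝ} (hs : Sm f) (i j : Fin 3) {x : E3} (hx : x ≠ 0) :
    pd i (pd j (fun x => a * f x)) x = a * pd i (pd j f) x := by
  rw [pd_congr (fun y hy => pd_const_mul a hs j hy) i hx, pd_const_mul a (hs.pd j) i hx]

theorem lap_const_mul (a : ℝ) {f : E3 → ℝ} (hs : Sm f) {x : E3} (hx : x ≠ 0) :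
    lap (fun x => a * f x) x = a * lap f x := by
  unfold lap
  rw [Finset.mul_sum]
  apply Finset.sum_congr rfl
  intro i _
  rw [pd2_const_mul a hs i i hx]

theorem hs2_const_mul (a : ℝ) {f : E3 → ℝ} (hs : Sm f) {x : E3} (hx : x ≠ 0) :
    hs2 (fun x => a * f x) x = a ^ 2 * hs2 f x := by
  unfold hs2
  rw [Finset.mul_sum]
  apply Finset.sum_congr rfl
  intro i _
  rw [Finset.mul_sum]
  apply Finset.sum_congr rfl
  intro j _
  rw [pd2_const_mul a hs _ _ hx]
  ring

/-- the gradient of a `1`-homogeneous function is at least its value -/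
theorem sq_le_gr2 {f : E3 → ℝ} (hs : Sm f) (hk : Hom 1 f) {x : E3} (hx : ‖x‖ = 1) :
    f x ^ 2 ≤ gr2 f x := by
  have hx0 : x ≠ 0 := by
    rintro rfl
    simp at hx
  have b1 := Helper80.CW.euler hk hs hx0
  push_cast at b1
  rw [one_mul] at b1
  have h1 := Finset.sum_mul_sq_le_sq_mul_sq Finset.univ (fun i => x i) (fun i => pd i f x)
  have h2 : ∑ i, x i ^ 2 = 1 := by
    rw [← norm_sq_eq, hx]
    norm_num
  rw [h2, one_mul, b1] at h1
  exact h1

section
variable {f : E3 → ℝ} {c : ℝ}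

/-- lower bound for the mixed discriminant integral -/
theorem sig_lower' (h : SSup f c) {S : Finset (ℕ × ℕ)} {co : ℕ × ℕ → ℝ} {R r B : ℝ}
    (hP : PW S co r B) (hR : 0 ≤ R) (hb : ∀ x, f x ≤ R * ‖x‖)
    (hRr : R ^ 2 - c ^ 2 / 4 ≤ c ^ 2 * r) :
    -(8 * π * c ^ 2 * B) ≤
      SI (fun x => lap (oddpart f c) x ^ 2 - hs2 (oddpart f c) x) := by
  have hc := h.cpos
  have hc2 : 0 < c ^ 2 := by positivity
  set G := oddpart f c with hG
  have hs := h.oddpart_sm
  have hh := h.oddpart_hom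
  rw [← hG] at hs hh
  set G1 : E3 → ℝ := fun x => c⁻¹ * G x with hG1
  have hs1 : Sm G1 := (Sm.const _).mul hs
  have hh1 : Hom 1 G1 := hh.const_mul _
  have sS : Sm (fun x => lap G1 x ^ 2 - hs2 G1 x) := (hs1.lap.pow 2).sub hs1.hs2
  have sJ : ∀ k : ℕ × ℕ, Sm (fun x => co k * JV k.1 k.2 (G1 x) (gr2 G1 x) (lap G1 x)
      (lap G1 x ^ 2 - hs2 G1 x)) := fun k => (Sm.const _).mul (sm_JV hs1 _ _)
  have sSum : Sm (fun x => ∑ k ∈ S, co k * JV k.1 k.2 (G1 x) (gr2 G1 x) (lap G1 x)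
      (lap G1 x ^ 2 - hs2 G1 x)) := Sm.sum (fun k _ => sJ k)
  have key : SI (fun x => (-(1 / 2)) * (lap G1 x ^ 2 - hs2 G1 x) +
      ∑ k ∈ S, co k * JV k.1 k.2 (G1 x) (gr2 G1 x) (lap G1 x) (lap G1 x ^ 2 - hs2 G1 x)) ≤
      SI (fun _ => B) := by
    apply SI_mono (((Sm.const _).mul sS).add sSum) (Sm.const _)
    intro x hx
    have hx0 : x ≠ 0 := by
      rintro rfl
      simp at hx
    obtain ⟨b1, b2⟩ := hess_bounds h hx
    have b3 := ball_bound h hR hb hx
    rw [← hG] at b1 b2 b3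
    have e1 : gr2 G1 x = gr2 G x / c ^ 2 := by
      rw [hG1, gr2_const_mul _ hs hx0]
      field_simp
    have e2 : lap G1 x = lap G x / c := by
      rw [hG1, lap_const_mul _ hs hx0]
      field_simp
    have e3 : hs2 G1 x = hs2 G x / c ^ 2 := by
      rw [hG1, hs2_const_mul _ hs hx0]
      field_simp
    have e4 : G1 x = G x / c := by
      rw [hG1]
      simp only
      field_simp
    have p1 : G1 x ^ 2 ≤ gr2 G1 x := sq_le_gr2 hs1 hh1 hx
    have p2 : |G1 x| + gr2 G1 x ≤ r := by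
      rw [e4, e1, abs_div, abs_of_pos hc]
      have : |G x| / c + gr2 G x / c ^ 2 = (gr2 G x + c * |G x|) / c ^ 2 := by
        field_simp
        ring
      rw [this, div_le_iff₀ hc2]
      linarith
    have p3 : |lap G1 x| ≤ 1 := by
      rw [e2, abs_div, abs_of_pos hc, div_le_one hc]
      exact b1
    have p4 : |lap G1 x| - 1 / 2 ≤ lap G1 x ^ 2 - hs2 G1 x := by
      rw [e3, e2, abs_div, abs_of_pos hc]
      have h1 : |lap G x| / c - 1 / 2 = (c * |lap G x| - c ^ 2 / 2) / c ^ 2 := by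
        field_simp
      have h2 : (lap G x / c) ^ 2 - hs2 G x / c ^ 2 = (lap G x ^ 2 - hs2 G x) / c ^ 2 := by
        field_simp
      rw [h1, h2]
      exact div_le_div_of_nonneg_right b2 hc2.le
    have := hP _ _ _ _ p1 p2 p3 p4
    linarith
  rw [SI_const, SI_add ((Sm.const _).mul sS) sSum, SI_const_mul,
    SI_sum (F := fun k x => co k * JV k.1 k.2 (G1 x) (gr2 G1 x) (lap G1 x)
      (lap G1 x ^ 2 - hs2 G1 x)) (fun k _ => sJ k)] at key
  have z : ∑ k ∈ S, SI (fun x => co k * JV k.1 k.2 (G1 x) (gr2 G1 x) (lap G1 x)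
      (lap G1 x ^ 2 - hs2 G1 x)) = 0 := by
    apply Finset.sum_eq_zero
    intro k _
    rw [SI_const_mul]
    have := Jmn hs1 hh1 k.1 k.2
    rw [JI_eq] at this
    rw [this, mul_zero]
  rw [z, add_zero] at key
  have e5 : SI (fun x => lap G x ^ 2 - hs2 G x) = c ^ 2 * SI (fun x => lap G1 x ^ 2 - hs2 G1 x) := by
    rw [← SI_const_mul]
    apply SI_congr
    intro x hx
    have hx0 : x ≠ 0 := by
      rintro rfl
      simp at hx
    rw [hG1, lap_const_mul _ hs hx0, hs2_const_mul _ hs hx0]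
    field_simp
  rw [e5]
  have h1 : -(8 * π * B) ≤ SI (fun x => lap G1 x ^ 2 - hs2 G1 x) := by linarith
  have h2 := mul_le_mul_of_nonneg_left h1 hc2.le
  linarith

/-- the volume integral of a body of constant width in a ball -/
theorem vol_lower' (h : SSup f c) {S : Finset (ℕ × ℕ)} {co : ℕ × ℕ → ℝ} {R r B : ℝ}
    (hP : PW S co r B) (hR : 0 ≤ R) (hb : ∀ x, f x ≤ R * ‖x‖)
    (hRr : R ^ 2 - c ^ 2 / 4 ≤ c ^ 2 * r) :
    6 * (π * c ^ 3 * (1 / 6 - 2 * B)) ≤ SI (fun x => f x * (lap f x ^ 2 - hs2 f x)) := by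
  have h1 := sig_lower' h hP hR hb hRr
  have hc := h.cpos
  rw [vol_id h]
  have h2 := mul_le_mul_of_nonneg_left h1 (show 0 ≤ 3 * c / 2 by positivity)
  refine le_trans (le_of_eq ?_) (add_le_add_left h2 _)
  ring

end

section
variable {K : Set E3}

/-- **generic end theorem** -/
theorem volume_far {S : Finset (ℕ × ℕ)} {co : ℕ × ℕ → ℝ} {r B : ℝ} (hP : PW S co r B)
    (hK : IsCompact K) (hc : Convex ℝ K) (hw : Width1 K) {x0 : E3} {R : ℝ}
    (hR1 : R ≤ 1) (hRr : R ^ 2 - 1 / 4 < r) (hsub : K ⊆ closedBall x0 R) :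
    ENNReal.ofReal (π * (1 / 6 - 2 * B)) ≤ volume K := by
  have hR := H0_supp_ball hK hw hR1 hsub
  have hRh := half_le hK hw hR1 hsub
  set K0 : Set E3 := (fun y => y + x0) ⁻¹' K with hK0
  have hK0c : IsCompact K0 := by
    have : K0 = (fun y => y - x0) '' K := by
      ext y
      constructor
      · intro hy
        exact ⟨y + x0, hy, by simp⟩
      · rintro ⟨z, hz, rfl⟩
        simpa [hK0] using hz
    rw [this]
    exact hK.image (by fun_prop)
  have hvol : volume K0 = volume K := measure_preimage_add_right volume x0 K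
  rw [← hvol]
  set re : ℝ → ℝ := fun ε => (R * (1 + ε) / (1 - ε)) ^ 2 - 1 / 4 with hre
  have hstep : ∀ ε : ℝ, 0 < ε → ε < 1 → re ε < r →
      ENNReal.ofReal (π * (1 - ε) ^ 3 * (1 / 6 - 2 * B)) ≤
        volume (cthickening (R * ε) K0) := by
    intro ε hε hε1 hrr
    have hS := Ht_SSup hR hε hε1
    have hcw := cw_ge hε
    have hb : ∀ x, Ht (H0 K x0) ε x ≤ (R * (1 + ε)) * ‖x‖ := by
      intro x
      have h1 := Ht_le hR hε x
      have h2 := hR.bound x
      linarith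
    have hcw0 : 0 < cw ε := by linarith
    have hRr' : (R * (1 + ε)) ^ 2 - cw ε ^ 2 / 4 ≤ cw ε ^ 2 * r := by
      have h1 : (1 - ε) ^ 2 ≤ cw ε ^ 2 := pow_le_pow_left₀ (by linarith) hcw 2
      have h2 : (R * (1 + ε)) ^ 2 = (1 - ε) ^ 2 * (R * (1 + ε) / (1 - ε)) ^ 2 := by
        have : (1 - ε) ≠ 0 := by linarith
        field_simp
      have h3 := mul_le_mul_of_nonneg_right h1 (sq_nonneg (R * (1 + ε) / (1 - ε)))
      have h4 : cw ε ^ 2 * re ε ≤ cw ε ^ 2 * r :=
        mul_le_mul_of_nonneg_left hrr.le (by positivity)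
      simp only [hre] at h4
      nlinarith
    have h1 := volume_ge hS (vol_lower' hS hP (by nlinarith) hb hRr')
    have h2 := body_sub' hK hc hw (f := Ht (H0 K x0) ε) (δ := R * ε) (Ht_le hR hε)
      (mul_nonneg hR.Rnn hε.le)
    have h3 := h1.trans (measure_mono h2)
    refine le_trans (ENNReal.ofReal_le_ofReal_iff' |>.2 ?_) h3
    by_cases hB : 0 ≤ 1 / 6 - 2 * B
    · left
      have h5 : (1 - ε) ^ 3 ≤ (cw ε) ^ 3 := pow_le_pow_left₀ (by linarith) hcw 3
      have hpi := Real.pi_pos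
      exact mul_le_mul_of_nonneg_right (mul_le_mul_of_nonneg_left h5 hpi.le) hB
    · right
      have hpi := Real.pi_pos
      have : 0 < (1 - ε) ^ 3 := pow_pos (by linarith) 3
      exact (mul_neg_of_pos_of_neg (by positivity) (not_le.1 hB)).le
  have hlim1 : Filter.Tendsto (fun ε : ℝ => volume (cthickening (R * ε) K0)) (𝓝[>] 0)
      (𝓝 (volume K0)) := by
    have h1 := tendsto_measure_cthickening_of_isCompact (μ := (volume : Measure E3)) hK0c
    have h2 : Filter.Tendsto (fun ε : ℝ => R * ε) (𝓝[>] 0) (𝓝 0) := by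
      have : Continuous (fun ε : ℝ => R * ε) := by fun_prop
      have h3 := this.tendsto 0
      simp only [mul_zero] at h3
      exact h3.mono_left nhdsWithin_le_nhds
    exact h1.comp h2
  have hlim2 : Filter.Tendsto (fun ε : ℝ => ENNReal.ofReal (π * (1 - ε) ^ 3 * (1 / 6 - 2 * B)))
      (𝓝[>] 0) (𝓝 (ENNReal.ofReal (π * (1 / 6 - 2 * B)))) := by
    apply ENNReal.tendsto_ofReal
    have hall : Continuous (fun ε : ℝ => π * (1 - ε) ^ 3 * (1 / 6 - 2 * B)) := by fun_prop
    have h3 := hall.tendsto 0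
    simp only [sub_zero, one_pow, mul_one] at h3
    exact h3.mono_left nhdsWithin_le_nhds
  apply le_of_tendsto_of_tendsto hlim2 hlim1
  have hlt : ∀ᶠ ε : ℝ in 𝓝 0, ε < 1 := eventually_lt_nhds one_pos
  have hrc : ContinuousAt re 0 := by
    have h1 : ContinuousAt (fun ε : ℝ => R * (1 + ε) / (1 - ε)) 0 := by
      apply ContinuousAt.div
      · fun_prop
      · fun_prop
      · norm_num
    exact (h1.pow 2).sub continuousAt_const
  have h0 : re 0 < r := by
    simp only [hre]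
    norm_num
    linarith
  have hrt : ∀ᶠ ε : ℝ in 𝓝 0, re ε < r := hrc.eventually (eventually_lt_nhds h0)
  filter_upwards [self_mem_nhdsWithin, hlt.filter_mono nhdsWithin_le_nhds,
    hrt.filter_mono nhdsWithin_le_nhds] with ε h1 h2 h3
  exact hstep ε h1 h2 h3

end

end Helper73.FARP
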